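import Pool.Agent.Y676.Defs
import Pool.Agent.Helper924.MW.Density

set_option autoImplicit false

/-!
# Almost all integers have a large prime factor `l` with `(d | l) = -1`
-/

namespace Pool.Agent.Y180.Y676

open Finset Pool.Agent.Helper924.MW.Density

/-- there is an odd `b` with `(d | b) = -1` -/
theorem exists_neg {d : ℤ} (hd : Squarefree d) (h1 : d ≠ 1) : ∃ b : ℕ, Odd b ∧ jacobiSym d b = -1 := by
  have hd0 : d ≠ 0 := by rintro rfl; exact not_squarefree_zero hd
  rcases Nat.eq_two_pow_or_exists_odd_prime_and_dvd d.natAbs with ⟨k, hk⟩ | ⟨p, hp, hpd, hodd⟩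
  · have hsq : Squarefree d.natAbs := Int.squarefree_natAbs.2 hd
    rw [hk] at hsq
    have hk1 : k ≤ 1 := by
      by_contra h
      have h2 : 2 * 2 ∣ 2 ^ k := by
        rw [← pow_two]
        exact pow_dvd_pow 2 (by omega)
      have := hsq 2 h2
      exact absurd this (by decide)
    interval_cases k
    · have : d = -1 := by
        have h3 : d.natAbs = 1 := by simpa using hk
        omega
      subst this
      exact ⟨3, by decide, by norm_num⟩
    · have h3 : d.natAbs = 2 := by simpa using hk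
      rcases (show d = 2 ∨ d = -2 by omega) with rfl | rfl
      · exact ⟨5, by decide, by norm_num⟩
      · exact ⟨5, by decide, by norm_num⟩
  · have hpz : (p : ℤ) ∣ d := Int.natCast_dvd.2 hpd
    obtain ⟨m, hm⟩ := hpz
    have hm0 : m ≠ 0 := by rintro rfl; simp at hm; exact hd0 hm
    have hpm : ¬ (p : ℤ) ∣ m := by
      intro h
      obtain ⟨c, rfl⟩ := h
      have h2 : (p : ℤ) * p ∣ d := ⟨c, by rw [hm]; ring⟩
      have h3 := hd _ h2
      rw [Int.isUnit_iff_natAbs_eq, Int.natAbs_natCast] at h3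
      exact hp.one_lt.ne' h3
    have hp2 : p ≠ 2 := by rintro rfl; exact absurd hodd (by decide)
    have : Fact p.Prime := ⟨hp⟩
    -- a nonresidue
    obtain ⟨n, hn⟩ : ∃ n : ℕ, jacobiSym n p = -1 := by
      obtain ⟨a, ha⟩ := FiniteField.exists_nonsquare (F := ZMod p) (by
        rw [ZMod.ringChar_zmod_n]; exact hp2)
      refine ⟨a.val, ?_⟩
      rw [← jacobiSym.legendreSym.to_jacobiSym, legendreSym.eq_neg_one_iff]
      simpa using ha
    have hcop : Nat.Coprime p (4 * m.natAbs) := by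
      refine (hp.coprime_iff_not_dvd).2 fun h => ?_
      rcases (hp.dvd_mul).1 h with h | h
      · have h2 : p ∣ 2 ^ 2 := by simpa using h
        have := (Nat.prime_dvd_prime_iff_eq hp Nat.prime_two).1 (hp.dvd_of_dvd_pow h2)
        exact hp2 this
      · exact hpm (Int.natCast_dvd.2 h)
    obtain ⟨b, hb1, hb2⟩ := Nat.chineseRemainder hcop n 1
    have hb4 : b % 4 = 1 := by
      have h5 : b ≡ 1 [MOD 4] := hb2.of_dvd (Dvd.intro _ rfl)
      exact h5
    have hbodd : Odd b := Nat.odd_iff.2 (by omega)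
    refine ⟨b, hbodd, ?_⟩
    rw [hm, jacobiSym.mul_left]
    have e1 : jacobiSym m b = 1 := by
      rw [jacobiSym.mod_right m hbodd]
      have h5 : b % (4 * m.natAbs) = 1 % (4 * m.natAbs) := hb2
      have h6 : 1 % (4 * m.natAbs) = 1 := by
        apply Nat.mod_eq_of_lt
        have : 0 < m.natAbs := Int.natAbs_pos.2 hm0
        omega
      rw [h5, h6, jacobiSym.one_right]
    have e2 : jacobiSym p b = -1 := by
      rw [jacobiSym.quadratic_reciprocity_one_mod_four' hodd hb4, ← hn]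
      apply jacobiSym.mod_left'
      exact_mod_cast hb1
    rw [e1, e2]
    norm_num

theorem den : Pool.Agent.Y676.S_DEN := by
  intro d hd hd1 Y ε hε
  have hd0 : d ≠ 0 := by rintro rfl; exact not_squarefree_zero hd
  obtain ⟨b, hbo, hb⟩ := exists_neg hd hd1
  set q : ℕ := 4 * d.natAbs with hq
  have hq0 : 0 < q := by have : 0 < d.natAbs := Int.natAbs_pos.2 hd0; omega
  have : NeZero q := ⟨hq0.ne'⟩
  have hbc : Nat.Coprime b q := by
    have h1 : Nat.Coprime b d.natAbs := by
      have h2 : jacobiSym d b ≠ 0 := by rw [hb]; norm_num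
      have h3 : b ≠ 0 := by rintro rfl; exact absurd hbo (by decide)
      have : NeZero b := ⟨h3⟩
      have h5 : d.gcd b = 1 := by
        by_contra h
        exact h2 ((jacobiSym.eq_zero_iff_not_coprime (a := d) (b := b)).2 h)
      rw [Int.gcd_comm] at h5
      simpa [Nat.Coprime, Int.gcd] using h5
    have h2 : Nat.Coprime b 4 := by
      have : Nat.Coprime b (2 ^ 2) := Nat.Coprime.pow_right 2 (Nat.coprime_two_right.2 hbo)
      simpa using this
    exact Nat.Coprime.mul_right h2 h1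
  have hunit : IsUnit (b : ZMod q) := (ZMod.isUnit_iff_coprime b q).2 hbc
  have hns := not_summable_g (q := q) hunit
  -- finitely many primes with large reciprocal sum
  obtain ⟨F0, hF0⟩ : ∃ F0 : Finset ℕ, Real.log (2 / ε) + 1 + ∑ n ∈ range (Y + 1), g (b : ZMod q) n <
      ∑ n ∈ F0, g (b : ZMod q) n := by
    by_contra hcon
    push Not at hcon
    exact hns (summable_of_sum_le (fun n => g_nonneg _ n) hcon)
  set F := F0.filter (fun n => (n.Prime ∧ ((n : ℕ) : ZMod q) = b) ∧ Y < n) with hFdef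
  have hsum : ∑ n ∈ F0, g (b : ZMod q) n ≤ ∑ p ∈ F, (1 : ℝ) / p + ∑ n ∈ range (Y + 1), g (b : ZMod q) n := by
    have e1 : ∑ p ∈ F, (1 : ℝ) / p = ∑ n ∈ F0.filter (fun n => Y < n), g (b : ZMod q) n := by
      rw [hFdef, Finset.sum_filter, Finset.sum_filter]
      refine Finset.sum_congr rfl fun n _ => ?_
      unfold g
      by_cases h1 : Y < n <;> by_cases h2 : n.Prime ∧ (n : ZMod q) = b <;> simp [h1, h2]
    rw [e1, ← Finset.sum_filter_add_sum_filter_not F0 (fun n => Y < n)]
    refine add_le_add le_rfl ?_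
    refine Finset.sum_le_sum_of_subset_of_nonneg ?_ (fun n _ _ => g_nonneg _ n)
    intro n hn
    rw [mem_filter] at hn
    rw [mem_range]
    omega
  have hF : ∀ p ∈ F, p.Prime ∧ Y < p ∧ jacobiSym d p = -1 := by
    intro p hp
    rw [hFdef, mem_filter] at hp
    obtain ⟨-, ⟨hp1, hp2⟩, hp3⟩ := hp
    refine ⟨hp1, hp3, ?_⟩
    have h1 : p % q = b % q := (ZMod.natCast_eq_natCast_iff' p b q).1 hp2
    have hpo : Odd p := by
      rw [Nat.odd_iff] at hbo ⊢
      have h2 : p % q % 2 = p % 2 := Nat.mod_mod_of_dvd p ⟨2 * d.natAbs, by rw [hq]; ring⟩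
      have h3 : b % q % 2 = b % 2 := Nat.mod_mod_of_dvd b ⟨2 * d.natAbs, by rw [hq]; ring⟩
      omega
    rw [jacobiSym.mod_right d hpo, ← hb, jacobiSym.mod_right d hbo, ← hq, h1]
  have hexp : Real.exp (-∑ p ∈ F, (1 : ℝ) / p) < ε / 2 := by
    calc Real.exp (-∑ p ∈ F, (1 : ℝ) / p) < Real.exp (-Real.log (2 / ε)) := by
          apply Real.exp_lt_exp.mpr
          linarith
      _ = ε / 2 := by
          rw [Real.exp_neg, Real.exp_log (by positivity)]
          field_simp
  set M := ∏ p ∈ F, p with hM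
  have hM0 : M ≠ 0 := Finset.prod_ne_zero_iff.mpr fun p hp => (hF p hp).1.ne_zero
  obtain ⟨N0, hN0⟩ := exists_nat_gt (2 * (M : ℝ) / ε)
  refine ⟨N0 + 1, fun X hX S hS => ?_⟩
  have hXpos : (0 : ℝ) < X := by
    have : 0 < X := by omega
    exact_mod_cast this
  have hXX : 2 * (M : ℝ) / ε < X := by
    have : (N0 : ℝ) ≤ X := by exact_mod_cast (by omega : N0 ≤ X)
    linarith
  have hMX : (M : ℝ) < ε / 2 * X := by
    rw [div_lt_iff₀ hε] at hXX
    linarith
  have hsub : S ⊆ (Finset.Ico 1 (1 + X)).filter (fun x => M.Coprime x) := by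
    intro n hn
    obtain ⟨h1, h2, h3⟩ := hS n hn
    rw [mem_filter, mem_Ico]
    refine ⟨⟨h1, by omega⟩, ?_⟩
    apply Nat.Coprime.prod_left
    intro p hp
    obtain ⟨hp1, hp2, hp3⟩ := hF p hp
    rw [hp1.coprime_iff_not_dvd]
    intro hdvd
    exact h3 p hp1 hp2 hdvd hp3
  have h1 : S.card ≤ Nat.totient M * (X / M + 1) :=
    (Finset.card_le_card hsub).trans (Nat.Ico_filter_coprime_le 1 X hM0)
  have h2 : ((S.card : ℕ) : ℝ) ≤ (Nat.totient M : ℝ) * (((X / M : ℕ) : ℝ) + 1) := by
    exact_mod_cast h1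
  have hM0' : (0 : ℝ) < M := by exact_mod_cast Nat.pos_of_ne_zero hM0
  have h3 : ((X / M : ℕ) : ℝ) ≤ (X : ℝ) / M := Nat.cast_div_le
  have h4 := totient_prod_le F fun p hp => (hF p hp).1
  rw [← hM] at h4
  have h5 : (Nat.totient M : ℝ) ≤ M := by exact_mod_cast Nat.totient_le M
  calc (S.card : ℝ)
      ≤ (Nat.totient M : ℝ) * (((X / M : ℕ) : ℝ) + 1) := h2
    _ = (Nat.totient M : ℝ) * ((X / M : ℕ) : ℝ) + (Nat.totient M : ℝ) := by ring
    _ ≤ (M * Real.exp (-∑ p ∈ F, (1 : ℝ) / p)) * ((X : ℝ) / M) + M := by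
        refine add_le_add (mul_le_mul h4 h3 (by positivity) (by positivity)) h5
    _ = Real.exp (-∑ p ∈ F, (1 : ℝ) / p) * X + M := by
        field_simp
    _ ≤ ε / 2 * X + ε / 2 * X := by
        refine add_le_add (mul_le_mul_of_nonneg_right hexp.le hXpos.le) hMX.le
    _ = ε * X := by ring

end Pool.Agent.Y180.Y676
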